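import Mathlib
import Pool.Agent.Helper32.AG.Goals

/-!
# The number inequality of the case of one block (project AG of helper32, MP_0f21ab_al)
-/

set_option autoImplicit false

namespace Pool.Agent.Helper71.AG

/-- The finite check for `a = 1`. -/
theorem n3_fin1 : ∀ w < 245, 3 ≤ w → ∀ h < 245, 0 < h → h ≤ w →
    (w + 1) * w ≤ 3 ^ (h - 1 + (w + h - 1) / h) := by
  decide +kernel

/-- The innermost statement of the finite check. -/
def Fin3 (p a d h : ℕ) : Prop := 0 < h → (p ^ a - 1) % h = 0 → 3 ≤ p ^ a - 1 →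
    ¬ (p = 2 ∧ a = 6 ∧ h = 7) →
    p ^ a * (p ^ a - 1) ≤
      3 ^ (d + (h - 1 + d - 1) / d + (p ^ a - 1 + h * d - 1) / (h * d) - 1)

instance (p a d h : ℕ) : Decidable (Fin3 p a d h) := by unfold Fin3; infer_instance

/-- The middle statement of the finite check. -/
def Fin3' (p a : ℕ) : Prop := 2 ≤ a → p ^ a ≤ 245 →
    ∀ d < 8, 0 < d → a % d = 0 → ¬ (d % p = 0) → ∀ h < 245, Fin3 p a d h

instance (p a : ℕ) : Decidable (Fin3' p a) := by unfold Fin3'; infer_instance

/-- The finite check for `a ≥ 2`. -/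
theorem n3_fin2 : ∀ p ∈ [2, 3, 5, 7, 11, 13], ∀ a < 8, Fin3' p a := by
  decide +kernel

theorem ceil_le {x y z : ℕ} (hy : 0 < y) (h : x ≤ z * y) : (x + y - 1) / y ≤ z := by
  have : (x + y - 1) / y < z + 1 := by
    rw [Nat.div_lt_iff_lt_mul hy]
    have : (z + 1) * y = z * y + y := by ring
    omega
  omega

/-- The large case. -/
theorem n3_large (n : ℕ) (hn : 11 ≤ n) :
    ((n + 1) ^ 2 + 4) ^ 2 * (((n + 1) ^ 2 + 4) ^ 2 + 64) ≤ 4096 * 3 ^ n := by
  obtain ⟨m, rfl⟩ := Nat.exists_eq_add_of_le' hn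
  clear hn
  induction m with
  | zero => norm_num
  | succ m ih =>
    have e : 3 * (((m + 11 + 1) ^ 2 + 4) ^ 2 * (((m + 11 + 1) ^ 2 + 4) ^ 2 + 64)) =
        ((m + 1 + 11 + 1) ^ 2 + 4) ^ 2 * (((m + 1 + 11 + 1) ^ 2 + 4) ^ 2 + 64) +
        (545900719 + 395941752 * m + 124001300 * m ^ 2 + 21981928 * m ^ 3 + 2418730 * m ^ 4 +
          169480 * m ^ 5 + 7396 * m ^ 6 + 184 * m ^ 7 + 2 * m ^ 8) := by ring
    have e2 : 4096 * 3 ^ (m + 1 + 11) = 3 * (4096 * 3 ^ (m + 11)) := by ring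
    rw [e2]
    refine le_trans ?_ (Nat.mul_le_mul_left 3 ih)
    rw [e]
    exact Nat.le_add_right _ _

/-- The bound for `w`. -/
theorem n3_bound (w h d u v : ℕ) (hh : 0 < h) (hu : h - 1 ≤ u * d) (hv : w ≤ v * (h * d)) :
    64 * w ≤ ((d + u + v) ^ 2 + 4) ^ 2 := by
  -- `S = (u + v) d + 1`
  have h1 : h ≤ u * d + 1 := by omega
  have h2 : h * h + w ≤ h * ((u + v) * d + 1) := by
    have : h * h ≤ h * (u * d + 1) := Nat.mul_le_mul_left _ h1
    calc h * h + w ≤ h * (u * d + 1) + v * (h * d) := add_le_add this hv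
      _ = h * ((u + v) * d + 1) := by ring
  set S := (u + v) * d + 1 with hS
  have h3 : 4 * w ≤ S ^ 2 := by
    zify at h2 ⊢
    nlinarith [sq_nonneg ((S : ℤ) - 2 * h)]
  have h4 : 4 * S ≤ (d + u + v) ^ 2 + 4 := by
    rw [hS]
    zify
    nlinarith [sq_nonneg ((u : ℤ) + v - d)]
  calc 64 * w = 16 * (4 * w) := by ring
    _ ≤ 16 * S ^ 2 := Nat.mul_le_mul_left _ h3
    _ = (4 * S) ^ 2 := by ring
    _ ≤ _ := Nat.pow_le_pow_left h4 2

/-- **N3.** -/
theorem n3 (p a d h u v : ℕ) (hp : p.Prime) (ha : 0 < a) (hd : d ∣ a) (hpd : ¬ p ∣ d)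
    (hh : h ∣ p ^ a - 1) (hw : 3 ≤ p ^ a - 1) (hex : ¬ (p = 2 ∧ a = 6 ∧ h = 7))
    (hu : h - 1 ≤ u * d) (hv : p ^ a - 1 ≤ v * (h * d)) :
    p ^ a * (p ^ a - 1) ≤ 3 ^ (d + u + v - 1) := by
  have hd0 : 0 < d := Nat.pos_of_dvd_of_pos hd ha
  have hh0 : 0 < h := Nat.pos_of_dvd_of_pos hh (by omega)
  have hb := n3_bound (p ^ a - 1) h d u v hh0 hu hv
  have hq : p ^ a = p ^ a - 1 + 1 := by omega
  rcases Nat.lt_or_ge 10 (d + u + v - 1) with hn | hn
  · have hl := n3_large (d + u + v - 1) hn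
    have e : d + u + v - 1 + 1 = d + u + v := by omega
    rw [e] at hl
    generalize hw' : p ^ a - 1 = w at *
    generalize d + u + v - 1 = n at *
    rw [hq]
    have h1 : 64 * w * (64 * w + 64) ≤
        ((d + u + v) ^ 2 + 4) ^ 2 * (((d + u + v) ^ 2 + 4) ^ 2 + 64) :=
      Nat.mul_le_mul hb (Nat.add_le_add_right hb 64)
    have h2 : 64 * w * (64 * w + 64) = 4096 * ((w + 1) * w) := by ring
    rw [h2] at h1
    exact Nat.le_of_mul_le_mul_left (h1.trans hl) (by norm_num)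
  · have hsum : d + u + v ≤ 11 := by omega
    have hb2 : 64 * (p ^ a - 1) ≤ 15625 := by
      refine hb.trans ?_
      calc ((d + u + v) ^ 2 + 4) ^ 2 ≤ (11 ^ 2 + 4) ^ 2 :=
            Nat.pow_le_pow_left (Nat.add_le_add_right (Nat.pow_le_pow_left hsum 2) 4) 2
        _ = 15625 := by norm_num
    have hq245 : p ^ a ≤ 245 := by omega
    have hhle : h ≤ p ^ a - 1 := Nat.le_of_dvd (by omega) hh
    have hu' : (h - 1 + d - 1) / d ≤ u := ceil_le hd0 hu
    have hv' : (p ^ a - 1 + h * d - 1) / (h * d) ≤ v := ceil_le (Nat.mul_pos hh0 hd0) hv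
    rcases Nat.lt_or_ge 1 a with ha2 | ha1
    · -- `a ≥ 2`
      have hp2 := hp.two_le
      have ha8 : a < 8 := by
        by_contra hc
        have : 2 ^ 8 ≤ p ^ a := (Nat.pow_le_pow_left hp2 8).trans
          (Nat.pow_le_pow_right (by omega) (by omega))
        norm_num at this
        omega
      have hp16 : p < 16 := by
        by_contra hc
        have : 16 ^ 2 ≤ p ^ a := (Nat.pow_le_pow_left (by omega) 2).trans
          (Nat.pow_le_pow_right (by omega) ha2)
        norm_num at this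
        omega
      have hpm : p ∈ [2, 3, 5, 7, 11, 13] := by
        interval_cases p <;> first | (simp; done) | exact absurd hp (by norm_num)
      have hda : d ≤ a := Nat.le_of_dvd ha hd
      have := n3_fin2 p hpm a ha8 ha2 hq245 d (by omega) hd0 (Nat.mod_eq_zero_of_dvd hd)
        (fun hc => hpd (Nat.dvd_of_mod_eq_zero hc)) h (by omega) hh0
        (Nat.mod_eq_zero_of_dvd hh) hw hex
      refine this.trans (Nat.pow_le_pow_right (by norm_num) ?_)
      omega
    · have ha1' : a = 1 := by omega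
      subst ha1'
      have hd1 : d = 1 := Nat.dvd_one.1 hd
      subst hd1
      have := n3_fin1 (p ^ 1 - 1) (by omega) hw h (by omega) hh0 hhle
      rw [← hq] at this
      refine this.trans (Nat.pow_le_pow_right (by norm_num) ?_)
      rw [mul_one] at hv'
      omega

/-- Packet AG-N3. -/
theorem n3Stmt : Pool.Agent.Helper32.AG.N3Stmt := by
  intro p a d h kk r hp ha hq hd hh hda hpd hhd hgen hk hr hw
  have h1 : d ≤ kk := by
    by_contra hc
    have : d * (kk + 1) ≤ d * d := Nat.mul_le_mul_left _ (by omega)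
    have e : d * (kk + 1) = d * kk + d := by ring
    omega
  obtain ⟨u, rfl⟩ := Nat.exists_eq_add_of_le h1
  refine n3 p a d h u r hp ha hda hpd hhd (by omega) ?_ ?_ hw
  · rintro ⟨rfl, rfl, rfl⟩
    exact hgen 3 (by norm_num) (by norm_num) (by norm_num)
  · have e : d * (d + u) = d * d + u * d := by ring
    omega

end Pool.Agent.Helper71.AG
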